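import Mathlib
import Pool.Agent.W406.PX.Stmts
import Pool.Agent.H993R3.BC.Theta
import Pool.Agent.H394R3.BC.Theta

/-! # Task THETA of project PX: the theta relation -/

set_option autoImplicit false

open Finset MeasureTheory Filter Topology

namespace Pool.Agent.W589.PX

open Pool.Agent.W406.PX
open Pool.Agent.H96R3.BC (vv cf NN)
open Pool.Agent.H394R3.BC (Ker cellB cell_laplace Ker_laplace Ker_laplace_int Ker_cont)
open Pool.Agent.H993R3.BC (vv_nonneg vv_pos cf_zero cf_one sumE intg E)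

/-- the nodes of the boundaries are at least one -/
theorem be_one {Q j' : ℕ} {B : ℕ → ℕ} {w : ℕ → ℝ → ℝ} {ε : ℝ} {ω : ℕ → ℝ} (hs : Sys Q j' B w ε ω) (i : ℕ) :
    1 ≤ be Q j' B i := by
  unfold be vv
  apply Real.one_le_rpow
  · have hj : (0:ℝ) < (j' : ℝ) ^ (2 * Q) := by
      have : (0:ℝ) < j' := by
        have := hs.hj
        exact_mod_cast (by omega : 0 < j')
      positivity
    rw [one_le_div hj]
    have h1 : j' ^ (2 * Q) ≤ B i := le_trans hs.low (hs.mono.monotone (Nat.zero_le i))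
    exact_mod_cast h1
  · positivity

theorem be_mono {Q j' : ℕ} {B : ℕ → ℕ} (hB : Monotone B) : Monotone (be Q j' B) := by
  intro i k hik
  unfold be vv
  apply Real.rpow_le_rpow (by positivity) _ (by positivity)
  apply div_le_div_of_nonneg_right _ (by positivity)
  exact_mod_cast hB hik

theorem be_lim {Q j' : ℕ} {B : ℕ → ℕ} (hQ : 1 ≤ Q) (hj : 1 ≤ j') (hB : StrictMono B) :
    Tendsto (be Q j' B) atTop atTop := by
  have h1 : Tendsto (fun i : ℕ => ((B i : ℝ) / (j' : ℝ) ^ (2 * Q))) atTop atTop := by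
    apply Tendsto.atTop_div_const
    · have : (0:ℝ) < j' := by exact_mod_cast hj
      positivity
    · exact tendsto_natCast_atTop_atTop.comp hB.tendsto_atTop
  have hQ' : (0:ℝ) < Q := by exact_mod_cast hQ
  exact (tendsto_rpow_atTop (by positivity : (0:ℝ) < 1 / (4 * (Q:ℝ)))).comp h1

theorem NN_le (Q : ℕ) {v : ℝ} (hv : 0 ≤ v) : NN Q v ≤ (1 + v) ^ (4 * Q + 3) := by
  unfold NN
  split_ifs with h
  · exact pow_le_pow_left₀ hv (by linarith) _
  · push Not at h
    calc v ^ (3 * Q + 2) ≤ v ^ (4 * Q + 3) := pow_le_pow_right₀ h.le (by omega)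
      _ ≤ _ := pow_le_pow_left₀ hv (by linarith) _

/-- Laplace transform of the contribution of a cell -/
theorem lapBL (Q j' : ℕ) (B : ℕ → ℕ) (w : ℕ → ℝ → ℝ) (c : ℕ → ℝ) (f : ℝ → ℝ) (hf : Continuous f) (i : ℕ)
    (h0 : 0 ≤ be Q j' B i) (h1 : be Q j' B i ≤ be Q j' B (i + 1)) {t : ℝ} (ht : 0 < t) :
    IntegrableOn (fun v : ℝ => Real.exp (-(v * t)) * BL Q j' B w c f i v) (Set.Ioi 0) ∧
    ∫ v in Set.Ioi (0:ℝ), Real.exp (-(v * t)) * BL Q j' B w c f i v =
      (t ^ (4 * Q + 4))⁻¹ * cZ Q j' B (co Q j' B w c f i) f i (fun u => Real.exp (-(u / t))) := by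
  obtain ⟨hA, hB⟩ := cell_laplace (4 * Q + 3) (A := fun n => co Q j' B w c f i n * (vv Q j' n) ^ 2)
    (u := vv Q j') hf (S := Ioc (B i) (B (i + 1))) h0 h1 (fun n _ => vv_nonneg _ _ _) ht
  have hK0 := Ker_laplace_int (4 * Q + 3) h0 ht
  have hK1 := Ker_laplace_int (4 * Q + 3) (h0.trans h1) ht
  have e : (fun v : ℝ => Real.exp (-(v * t)) * BL Q j' B w c f i v) = fun v =>
      Real.exp (-(v * t)) * cellB (fun n => co Q j' B w c f i n * (vv Q j' n) ^ 2) (vv Q j') f
        (Ioc (B i) (B (i + 1))) (be Q j' B i) (be Q j' B (i + 1)) (fun u => Ker (4 * Q + 3) u v)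
      + (Zf Q j' B f (i + 1) * (Real.exp (-(v * t)) * Ker (4 * Q + 3) (be Q j' B (i + 1)) v)
      - Zf Q j' B f i * (Real.exp (-(v * t)) * Ker (4 * Q + 3) (be Q j' B i) v)) := by
    funext v
    unfold BL cZ cellB
    ring
  have hI2 : IntegrableOn (fun v : ℝ =>
      Zf Q j' B f (i + 1) * (Real.exp (-(v * t)) * Ker (4 * Q + 3) (be Q j' B (i + 1)) v)
      - Zf Q j' B f i * (Real.exp (-(v * t)) * Ker (4 * Q + 3) (be Q j' B i) v)) (Set.Ioi 0) :=
    (hK1.const_mul _).sub (hK0.const_mul _)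
  rw [e]
  refine ⟨hA.add hI2, ?_⟩
  rw [integral_add hA hI2, integral_sub (hK1.const_mul _) (hK0.const_mul _), hB, integral_const_mul,
    integral_const_mul, Ker_laplace _ (h0.trans h1) ht, Ker_laplace _ h0 ht]
  unfold cZ cellB
  ring

/-- Laplace transform of the contribution of a group of the source -/
theorem lapSg (Q j' m : ℕ) (B : ℕ → ℕ) (s : ℕ → ℝ) (g : ℕ) {t : ℝ} (ht : 0 < t) :
    IntegrableOn (fun v : ℝ => Real.exp (-(v * t)) * Sg Q j' m B s g v) (Set.Ioi 0) ∧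
    ∫ v in Set.Ioi (0:ℝ), Real.exp (-(v * t)) * Sg Q j' m B s g v =
      (t ^ (4 * Q + 4))⁻¹ * ∑ n ∈ Ioc (B (m * g)) (B (m * (g + 1))),
        s n * (vv Q j' n) ^ 2 * Real.exp (-(vv Q j' n / t)) := by
  obtain ⟨hA, hB⟩ := cell_laplace (4 * Q + 3) (A := fun n => s n * (vv Q j' n) ^ 2)
    (u := vv Q j') (f := fun _ => 0) continuous_const (S := Ioc (B (m * g)) (B (m * (g + 1)))) (a := 0) (b := 0)
    le_rfl le_rfl (fun n _ => vv_nonneg _ _ _) ht
  have e : ∀ v : ℝ, Sg Q j' m B s g v = cellB (fun n => s n * (vv Q j' n) ^ 2) (vv Q j') (fun _ => 0)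
      (Ioc (B (m * g)) (B (m * (g + 1)))) 0 0 (fun u => Ker (4 * Q + 3) u v) := by
    intro v
    simp [Sg, cellB]
  simp only [e]
  refine ⟨hA, ?_⟩
  rw [hB]
  simp [cellB]

theorem Zf_bd {Q j' : ℕ} {B : ℕ → ℕ} {w : ℕ → ℝ → ℝ} {ε : ℝ} {ω : ℕ → ℝ} (hs : Sys Q j' B w ε ω)
    {f : ℝ → ℝ} (hb : ∀ v : ℝ, 0 ≤ v → |f v| ≤ kp Q j' * NN Q v) (i : ℕ) :
    |Zf Q j' B f i| ≤ kp Q j' * (1 + be Q j' B i) ^ (4 * Q + 6) := by
  have h0 := be_one hs 0
  have hi := be_one hs i
  have hm := be_mono (Q := Q) (j' := j') hs.mono.monotone (Nat.zero_le i)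
  have hk : 0 ≤ kp Q j' := by unfold kp; positivity
  set b := be Q j' B i with hbdef
  have h1 : |∫ u in (be Q j' B 0)..b, f u / u ^ 2| ≤ kp Q j' * (1 + b) ^ (4 * Q + 3) * |b - be Q j' B 0| := by
    rw [← Real.norm_eq_abs]
    apply intervalIntegral.norm_integral_le_of_norm_le_const
    intro u hu
    rw [Set.uIoc_of_le hm] at hu
    have hu1 : 1 ≤ u := h0.trans hu.1.le
    rw [Real.norm_eq_abs, abs_div, abs_of_nonneg (sq_nonneg u)]
    have h2 : |f u| ≤ kp Q j' * (1 + b) ^ (4 * Q + 3) := by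
      refine (hb u (by linarith)).trans ?_
      apply mul_le_mul_of_nonneg_left _ hk
      exact (NN_le Q (by linarith)).trans (pow_le_pow_left₀ (by linarith) (by linarith [hu.2]) _)
    refine le_trans (div_le_self (abs_nonneg _) (one_le_pow₀ hu1)) h2
  unfold Zf
  rw [← hbdef, abs_mul, abs_of_nonneg (sq_nonneg b)]
  have h3 : |b - be Q j' B 0| ≤ 1 + b := by
    rw [abs_of_nonneg (by linarith)]
    linarith
  calc |∫ u in (be Q j' B 0)..b, f u / u ^ 2| * b ^ 2
      ≤ (kp Q j' * (1 + b) ^ (4 * Q + 3) * (1 + b)) * (1 + b) ^ 2 := by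
        apply mul_le_mul _ (pow_le_pow_left₀ (by linarith) (by linarith) _) (by positivity) (by positivity)
        exact h1.trans (mul_le_mul_of_nonneg_left h3 (by positivity))
    _ = _ := by ring

theorem exp_dec (m : ℕ) {s : ℝ} (hs : 0 < s) :
    Tendsto (fun x : ℝ => (1 + x) ^ m * Real.exp (-(x * s))) atTop (𝓝 0) := by
  have h1 : Tendsto (fun x : ℝ => (1 + x) * s) atTop atTop :=
    (tendsto_atTop_add_const_left _ 1 tendsto_id).atTop_mul_const hs
  have h2 := (Real.tendsto_pow_mul_exp_neg_atTop_nhds_zero m).comp h1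
  have h3 := h2.const_mul ((s ^ m)⁻¹ * Real.exp s)
  rw [mul_zero] at h3
  refine h3.congr fun x => ?_
  simp only [Function.comp]
  have hsm : s ^ m ≠ 0 := (pow_pos hs m).ne'
  have e1 : Real.exp (-((1 + x) * s)) = Real.exp (-(x * s)) * Real.exp (-s) := by
    rw [← Real.exp_add]; congr 1; ring
  have e2 : Real.exp s * Real.exp (-s) = 1 := by rw [← Real.exp_add]; simp
  rw [e1, mul_pow]
  calc (s ^ m)⁻¹ * Real.exp s * ((1 + x) ^ m * s ^ m * (Real.exp (-(x * s)) * Real.exp (-s)))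
      = ((s ^ m)⁻¹ * s ^ m) * (Real.exp s * Real.exp (-s)) * ((1 + x) ^ m * Real.exp (-(x * s))) := by ring
    _ = _ := by rw [inv_mul_cancel₀ hsm, e2]; ring


section main

variable {Q j' m : ℕ} {B : ℕ → ℕ} {w : ℕ → ℝ → ℝ} {ε : ℝ} {ω : ℕ → ℝ} {s x : ℕ → ℝ} {f : ℝ → ℝ}

theorem y_low (hS : SrcOK Q j' m B s) (hO : Out Q j' m B w ε s x f) {p : ℕ} (hp : p ≤ B 0) : s p + x p = 0 := by
  have h1 : s p = 0 := by
    by_contra h
    have := (hS.supp p h).2
    omega
  have h2 : x p = 0 := by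
    by_contra h
    have := (hO.xsupp p h).2
    omega
  rw [h1, h2, add_zero]

theorem B0_big (hs : Sys Q j' B w ε ω) : 3 ≤ B 0 := by
  have h1 := hs.low
  have h2 := hs.hj
  have h3 := hs.hQ
  have h4 : j' ≤ j' ^ (2 * Q) := Nat.le_self_pow (by omega) _
  omega

theorem y_le (hs : Sys Q j' B w ε ω) (hS : SrcOK Q j' m B s) (hO : Out Q j' m B w ε s x f) (p : ℕ) :
    |s p + x p| ≤ 1 := by
  rcases Nat.lt_or_ge (B 0) p with hp | hp
  · have hp3 : 3 ≤ p := by
      have := B0_big hs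
      omega
    have h1 := hS.bd p
    have h2 := hO.xbd p
    have hg : 0 ≤ gw p ∧ gw p ≤ 1 := by
      unfold gw
      split_ifs
      · refine ⟨by positivity, ?_⟩
        have hp3' : (3:ℝ) ≤ p := by exact_mod_cast hp3
        have hl : 1 ≤ Real.log p := by
          rw [Real.le_log_iff_exp_le (by linarith)]
          have := Real.exp_one_lt_d9
          linarith
        rw [div_le_one (by positivity)]
        exact one_le_pow₀ hl
      · exact ⟨le_rfl, zero_le_one⟩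
    have h3 : ε * gw p ≤ 1 / 2 * gw p := mul_le_mul_of_nonneg_right hs.hε.2 hg.1
    have h4 := abs_add_le (s p) (x p)
    linarith [hg.2]
  · rw [y_low hS hO hp]
    simp

theorem cf_le (hs : Sys Q j' B w ε ω) (hS : SrcOK Q j' m B s) (hO : Out Q j' m B w ε s x f) (n : ℕ) :
    |cf (fun n => s n + x n) n| ≤ 1 := by
  unfold cf
  split_ifs
  · rw [Finset.abs_prod]
    apply Finset.prod_le_one
    · intro p _; exact abs_nonneg _
    · intro p _; exact y_le hs hS hO p
  · simp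

/-- coefficients in the cells -/
theorem co_eq (hS : SrcOK Q j' m B s) (hO : Out Q j' m B w ε s x f) (i n : ℕ) (hn : n ∈ Ioc (B i) (B (i + 1))) :
    co Q j' B w (cN (fun n => s n + x n)) f i n = cf (fun n => s n + x n) n - s n := by
  unfold co
  have hcN : cN (fun n => s n + x n) n = if n.Prime then 0 else cf (fun n => s n + x n) n := rfl
  rw [hcN]
  by_cases hp : n.Prime
  · rw [if_pos hp, if_pos hp, ← hO.xeq i n hn hp]
    have : cf (fun n => s n + x n) n = s n + x n := by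
      unfold cf
      rw [if_pos hp.squarefree, hp.primeFactors, Finset.prod_singleton]
    rw [this]
    ring
  · rw [if_neg hp, if_neg hp]
    have : s n = 0 := by
      by_contra h
      exact hp (hS.supp n h).1
    rw [this]
    ring

/-- partial sums of the functionals of the cells -/
theorem part_cZ (hs : Sys Q j' B w ε ω) (hS : SrcOK Q j' m B s) (hO : Out Q j' m B w ε s x f) {g : ℝ → ℝ}
    (hg : Continuous g) (N : ℕ) :
    ∑ i ∈ range N, cZ Q j' B (co Q j' B w (cN (fun n => s n + x n)) f i) f i g =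
      ∑ n ∈ Ioc (B 0) (B N), (cf (fun n => s n + x n) n - s n) * (vv Q j' n) ^ 2 * g (vv Q j' n)
        + Zf Q j' B f N * g (be Q j' B N) - ∫ u in (be Q j' B 0)..(be Q j' B N), f u * g u := by
  have hf := hO.fcont
  induction N with
  | zero =>
    simp [Zf]
  | succ N ih =>
    rw [Finset.sum_range_succ, ih]
    have h1 : ∑ n ∈ Ioc (B 0) (B (N + 1)), (cf (fun n => s n + x n) n - s n) * (vv Q j' n) ^ 2 * g (vv Q j' n) =
        ∑ n ∈ Ioc (B 0) (B N), (cf (fun n => s n + x n) n - s n) * (vv Q j' n) ^ 2 * g (vv Q j' n) +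
        ∑ n ∈ Ioc (B N) (B (N + 1)), (cf (fun n => s n + x n) n - s n) * (vv Q j' n) ^ 2 * g (vv Q j' n) :=
      (Finset.sum_Ioc_consecutive _ (hs.mono.monotone (Nat.zero_le N)) (hs.mono.monotone (Nat.le_succ N))).symm
    have h2 : ∑ n ∈ Ioc (B N) (B (N + 1)), co Q j' B w (cN (fun n => s n + x n)) f N n * (vv Q j' n) ^ 2 *
        g (vv Q j' n) =
        ∑ n ∈ Ioc (B N) (B (N + 1)), (cf (fun n => s n + x n) n - s n) * (vv Q j' n) ^ 2 * g (vv Q j' n) := by
      apply Finset.sum_congr rfl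
      intro n hn
      rw [co_eq hS hO N n hn]
    have h3 : ∫ u in (be Q j' B 0)..(be Q j' B (N + 1)), f u * g u =
        (∫ u in (be Q j' B 0)..(be Q j' B N), f u * g u) + ∫ u in (be Q j' B N)..(be Q j' B (N + 1)), f u * g u :=
      (intervalIntegral.integral_add_adjacent_intervals ((hf.mul hg).intervalIntegrable _ _)
        ((hf.mul hg).intervalIntegrable _ _)).symm
    rw [h1, h3]
    unfold cZ
    rw [h2]
    ring

theorem part_S (hs : Sys Q j' B w ε ω) (g : ℝ → ℝ) (G : ℕ) :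
    ∑ i ∈ range G, ∑ n ∈ Ioc (B (m * i)) (B (m * (i + 1))), s n * (vv Q j' n) ^ 2 * g (vv Q j' n) =
      ∑ n ∈ Ioc (B 0) (B (m * G)), s n * (vv Q j' n) ^ 2 * g (vv Q j' n) := by
  induction G with
  | zero => simp
  | succ G ih =>
    rw [Finset.sum_range_succ, ih]
    exact Finset.sum_Ioc_consecutive _ (hs.mono.monotone (Nat.zero_le _))
      (hs.mono.monotone (Nat.mul_le_mul_left m (Nat.le_succ G)))

/-- the sum of the terms up to a boundary -/
theorem part_E (hs : Sys Q j' B w ε ω) (hS : SrcOK Q j' m B s) (hO : Out Q j' m B w ε s x f) (r : ℝ) (N : ℕ) :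
    (vv Q j' 1) ^ 2 * Real.exp (-(vv Q j' 1 * r)) + ∑ n ∈ Ioc (B 0) (B N), E Q j' (fun n => s n + x n) r n =
      ∑ n ∈ range (B N + 1), E Q j' (fun n => s n + x n) r n := by
  have hB0 := B0_big hs
  have h0 : ∑ n ∈ range (B 0 + 1), E Q j' (fun n => s n + x n) r n = (vv Q j' 1) ^ 2 * Real.exp (-(vv Q j' 1 * r)) := by
    have hz : ∀ n ∈ range (B 0 + 1), n ≠ 1 → E Q j' (fun n => s n + x n) r n = 0 := by
      intro n hn hn1
      have hn' : n ≤ B 0 := by
        have := Finset.mem_range.mp hn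
        omega
      have : cf (fun n => s n + x n) n = 0 := by
        unfold cf
        split_ifs with hsq
        · have hn0 : n ≠ 0 := hsq.ne_zero
          obtain ⟨p, hp, hpn⟩ := Nat.exists_prime_and_dvd hn1
          apply Finset.prod_eq_zero (i := p)
          · exact Nat.mem_primeFactors.mpr ⟨hp, hpn, hn0⟩
          · exact y_low hS hO (le_trans (Nat.le_of_dvd (Nat.pos_of_ne_zero hn0) hpn) hn')
        · rfl
      simp [E, this]
    have h1m : 1 ∈ range (B 0 + 1) := by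
      rw [Finset.mem_range]
      omega
    rw [Finset.sum_eq_single_of_mem 1 h1m hz]
    simp [E, cf_one]
  have hle : B 0 ≤ B N := hs.mono.monotone (Nat.zero_le N)
  have hcc : Ioc (B 0) (B N) = Finset.Ico (B 0 + 1) (B N + 1) := by
    ext n
    simp only [Finset.mem_Ioc, Finset.mem_Ico]
    omega
  rw [← h0, hcc, Finset.range_eq_Ico, Finset.sum_Ico_consecutive _ (Nat.zero_le _) (by omega), ← Finset.range_eq_Ico]

/-- the basic identity -/
theorem lap (hBlz : Blz) (hSrc : TaskSrc) (hs : Sys Q j' B w ε ω) (hS : SrcOK Q j' m B s)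
    (hO : Out Q j' m B w ε s x f) {t : ℝ} (ht : 0 < t) :
    t ^ (4 * Q + 4) * ∫ v in Set.Ioi (0:ℝ), Real.exp (-(v * t)) * f v =
      ∑' n : ℕ, E Q j' (fun n => s n + x n) t⁻¹ n - ∫ v in Set.Ioi (0:ℝ), Real.exp (-(v * t⁻¹)) * f v := by
  have hf := hO.fcont
  have hQ1 : 1 ≤ Q := by have := hs.hQ; omega
  have hj1 : 1 ≤ j' := by have := hs.hj; omega
  have hkp : 0 ≤ kp Q j' := by unfold kp; positivity
  set c : ℕ → ℝ := cN (fun n => s n + x n) with hc
  have hBdd : Bdd Q j' B 1 c f :=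
    ⟨zero_le_one, hf, fun i => by rw [one_mul]; exact hO.mass i, fun v hv => by rw [one_mul]; exact hO.fbd v hv⟩
  have hBL := fun i => hBlz Q j' B w ε ω hs 1 c f hBdd i
  obtain ⟨hSg, -, hSgsum, hSgbd, hSgc⟩ := hSrc Q j' m B w ε ω hs s hS
  have hbe0 : ∀ i, 0 ≤ be Q j' B i := fun i => zero_le_one.trans (be_one hs i)
  have hbem := be_mono (Q := Q) (j' := j') hs.mono.monotone
  have hfi : ∀ r : ℝ, 0 < r → IntegrableOn (fun v : ℝ => Real.exp (-(v * r)) * f v) (Set.Ioi 0) := by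
    intro r hr
    exact intg f hf (kp Q j') (4 * Q + 3)
      (fun v hv => (hO.fbd v hv).trans (mul_le_mul_of_nonneg_left (NN_le Q hv) hkp)) r hr
  have hpow : IntegrableOn (fun v : ℝ => Real.exp (-(v * t)) * v ^ (8 * Q + 7)) (Set.Ioi 0) := by
    apply intg _ (by fun_prop) 1 (8 * Q + 7) _ t ht
    intro v hv
    rw [abs_of_nonneg (by positivity), one_mul]
    exact pow_le_pow_left₀ hv (by linarith) _
  -- a general lemma for the sum of the integrals
  have hgen : ∀ (F : ℕ → ℝ → ℝ) (M : ℕ → ℝ), Summable M →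
      (∀ i, IntegrableOn (fun v : ℝ => Real.exp (-(v * t)) * F i v) (Set.Ioi 0)) →
      (∀ i, ∀ v : ℝ, 0 ≤ v → |F i v| ≤ M i * v ^ (8 * Q + 7)) →
      HasSum (fun i => ∫ v in Set.Ioi (0:ℝ), Real.exp (-(v * t)) * F i v)
        (∫ v in Set.Ioi (0:ℝ), Real.exp (-(v * t)) * ∑' i, F i v) := by
    intro F M hM hFi hFb
    have hnorm : Summable fun i : ℕ => ∫ v in Set.Ioi (0:ℝ), ‖Real.exp (-(v * t)) * F i v‖ := by
      refine Summable.of_nonneg_of_le (fun i => ?_) (fun i => ?_)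
        (hM.mul_right (∫ v in Set.Ioi (0:ℝ), Real.exp (-(v * t)) * v ^ (8 * Q + 7)))
      · exact integral_nonneg fun v => norm_nonneg _
      · rw [← integral_const_mul]
        refine setIntegral_mono_on (hFi i).norm (hpow.const_mul (M i)) measurableSet_Ioi ?_
        intro v hv
        have hv' : (0:ℝ) ≤ v := le_of_lt hv
        rw [Real.norm_eq_abs, abs_mul, abs_of_pos (Real.exp_pos _)]
        calc Real.exp (-(v * t)) * |F i v|
            ≤ Real.exp (-(v * t)) * (M i * v ^ (8 * Q + 7)) :=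
              mul_le_mul_of_nonneg_left (hFb i v hv') (Real.exp_pos _).le
          _ = _ := by ring
    have h := hasSum_integral_of_summable_integral_norm hFi hnorm
    simp only [tsum_mul_left] at h
    exact h
  have hsumB := hgen (fun i v => BL Q j' B w c f i v) (fun i => 1 * qA Q j' B i) (hs.sumA.1.mul_left 1)
    (fun i => (lapBL Q j' B w c f hf i (hbe0 i) (hbem (Nat.le_succ i)) ht).1) (fun i => (hBL i).1)
  have hsumS := hgen (fun g v => Sg Q j' m B s g v) (fun g => rA Q j' m B g) hS.sumA.1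
    (fun g => (lapSg Q j' m B s g ht).1) hSg
  -- integrability of the sum of the source
  have hIS : IntegrableOn (fun v : ℝ => Real.exp (-(v * t)) * ∑' g, Sg Q j' m B s g v) (Set.Ioi 0) := by
    have h1 := intg _ hSgc (kp Q j' / 16) (4 * Q + 3) (fun v hv => by
      rw [max_eq_left hv]
      exact (hSgbd v hv).trans (mul_le_mul_of_nonneg_left (NN_le Q hv) (by positivity))) t ht
    refine h1.congr_fun (fun v hv => ?_) measurableSet_Ioi
    simp only [max_eq_left (le_of_lt (Set.mem_Ioi.mp hv))]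
  -- first cell
  obtain ⟨hi01', he01'⟩ := cell_laplace (4 * Q + 3) (A := fun _ => 0) (u := fun _ => 0) hf (S := ∅) (a := 0)
    (b := be Q j' B 0) le_rfl (hbe0 0) (fun n _ => le_rfl) ht
  have hi01 : IntegrableOn (fun v : ℝ => Real.exp (-(v * t)) *
      ∫ u in (0:ℝ)..(be Q j' B 0), f u * Ker (4 * Q + 3) u v) (Set.Ioi 0) := by
    refine hi01'.neg.congr_fun (fun v _ => ?_) measurableSet_Ioi
    simp [cellB]
  have he01 : ∫ v in Set.Ioi (0:ℝ), Real.exp (-(v * t)) *
      ∫ u in (0:ℝ)..(be Q j' B 0), f u * Ker (4 * Q + 3) u v =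
      (t ^ (4 * Q + 4))⁻¹ * ∫ u in (0:ℝ)..(be Q j' B 0), f u * Real.exp (-(u / t)) := by
    simp only [cellB, Finset.sum_empty, zero_sub, mul_neg, integral_neg, neg_inj] at he01'
    exact he01'
  have hiK := Ker_laplace_int (4 * Q + 3) (vv_nonneg Q j' 1) ht
  have heK := Ker_laplace (4 * Q + 3) (vv_nonneg Q j' 1) ht
  have hval : ∫ v in Set.Ioi (0:ℝ), Real.exp (-(v * t)) * ∑' i, BL Q j' B w c f i v =
      (∫ v in Set.Ioi (0:ℝ), Real.exp (-(v * t)) * f v) -
        (vv Q j' 1) ^ 2 * ((t ^ (4 * Q + 4))⁻¹ * Real.exp (-(vv Q j' 1 / t))) +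
        (t ^ (4 * Q + 4))⁻¹ * (∫ u in (0:ℝ)..(be Q j' B 0), f u * Real.exp (-(u / t))) -
        ∫ v in Set.Ioi (0:ℝ), Real.exp (-(v * t)) * ∑' g, Sg Q j' m B s g v := by
    have hA1 : Integrable (fun v : ℝ => Real.exp (-(v * t)) * f v -
        (vv Q j' 1) ^ 2 * (Real.exp (-(v * t)) * Ker (4 * Q + 3) (vv Q j' 1) v))
        (volume.restrict (Set.Ioi 0)) := (hfi t ht).sub (hiK.const_mul _)
    have hA2 : Integrable (fun v : ℝ => Real.exp (-(v * t)) * f v -
        (vv Q j' 1) ^ 2 * (Real.exp (-(v * t)) * Ker (4 * Q + 3) (vv Q j' 1) v) +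
        Real.exp (-(v * t)) * ∫ u in (0:ℝ)..(be Q j' B 0), f u * Ker (4 * Q + 3) u v)
        (volume.restrict (Set.Ioi 0)) := hA1.add hi01
    rw [← he01, ← heK, ← integral_const_mul, ← integral_sub (hfi t ht) (hiK.const_mul _),
      ← integral_add hA1 hi01, ← integral_sub hA2 hIS]
    apply setIntegral_congr_fun measurableSet_Ioi
    intro v hv
    have hv' : (0:ℝ) ≤ v := le_of_lt hv
    have h1 := hO.feq v hv'
    simp only
    unfold FL at h1
    rw [← hc] at h1
    rw [h1]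
    ring
  rw [hval] at hsumB
  have hm := hS.hm
  have hmG : Tendsto (fun G : ℕ => m * G) atTop atTop :=
    tendsto_id.const_mul_atTop' (by omega)
  have htend := (hsumB.tendsto_sum_nat.comp hmG).add hsumS.tendsto_sum_nat
  rw [sub_add_cancel] at htend
  set T : ℝ := t ^ (4 * Q + 4) with hT
  have hTpos : 0 < T := by positivity
  set ex : ℝ → ℝ := fun u => Real.exp (-(u / t)) with hex
  have hexc : Continuous ex := by fun_prop
  have hpart : ∀ G : ℕ, (∑ i ∈ range (m * G), ∫ v in Set.Ioi (0:ℝ), Real.exp (-(v * t)) * BL Q j' B w c f i v) +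
      ∑ g ∈ range G, ∫ v in Set.Ioi (0:ℝ), Real.exp (-(v * t)) * Sg Q j' m B s g v =
      T⁻¹ * ((∑ n ∈ range (B (m * G) + 1), E Q j' (fun n => s n + x n) t⁻¹ n) -
        (vv Q j' 1) ^ 2 * Real.exp (-(vv Q j' 1 * t⁻¹)) + Zf Q j' B f (m * G) * ex (be Q j' B (m * G)) -
        ((∫ u in (0:ℝ)..(be Q j' B (m * G)), f u * ex u) - ∫ u in (0:ℝ)..(be Q j' B 0), f u * ex u)) := by
    intro G
    have h1 : ∑ i ∈ range (m * G), ∫ v in Set.Ioi (0:ℝ), Real.exp (-(v * t)) * BL Q j' B w c f i v =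
        T⁻¹ * ∑ i ∈ range (m * G), cZ Q j' B (co Q j' B w c f i) f i ex := by
      rw [Finset.mul_sum]
      apply Finset.sum_congr rfl
      intro i _
      exact (lapBL Q j' B w c f hf i (hbe0 i) (hbem (Nat.le_succ i)) ht).2
    have h2 : ∑ g ∈ range G, ∫ v in Set.Ioi (0:ℝ), Real.exp (-(v * t)) * Sg Q j' m B s g v =
        T⁻¹ * ∑ g ∈ range G, ∑ n ∈ Ioc (B (m * g)) (B (m * (g + 1))), s n * (vv Q j' n) ^ 2 * ex (vv Q j' n) := by
      rw [Finset.mul_sum]
      apply Finset.sum_congr rfl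
      intro i _
      exact (lapSg Q j' m B s i ht).2
    rw [h1, h2, part_cZ hs hS hO hexc, part_S hs ex, ← part_E hs hS hO t⁻¹ (m * G)]
    have h3 : ∑ n ∈ Ioc (B 0) (B (m * G)), E Q j' (fun n => s n + x n) t⁻¹ n =
        ∑ n ∈ Ioc (B 0) (B (m * G)), (cf (fun n => s n + x n) n - s n) * (vv Q j' n) ^ 2 * ex (vv Q j' n) +
        ∑ n ∈ Ioc (B 0) (B (m * G)), s n * (vv Q j' n) ^ 2 * ex (vv Q j' n) := by
      rw [← Finset.sum_add_distrib]
      apply Finset.sum_congr rfl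
      intro n _
      simp only [E, hex, div_eq_mul_inv]
      ring
    have h4 : (∫ u in (0:ℝ)..(be Q j' B (m * G)), f u * ex u) - ∫ u in (0:ℝ)..(be Q j' B 0), f u * ex u =
        ∫ u in (be Q j' B 0)..(be Q j' B (m * G)), f u * ex u :=
      intervalIntegral.integral_interval_sub_left ((hf.mul hexc).intervalIntegrable _ _)
        ((hf.mul hexc).intervalIntegrable _ _)
    rw [h3, h4]
    ring
  have hbelim := (be_lim (Q := Q) (j' := j') hQ1 hj1 hs.mono).comp hmG
  have hZ : Tendsto (fun G : ℕ => Zf Q j' B f (m * G) * ex (be Q j' B (m * G))) atTop (𝓝 0) := by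
    have h1 := ((exp_dec (4 * Q + 6) (inv_pos.mpr ht)).comp hbelim).const_mul (kp Q j')
    rw [mul_zero] at h1
    refine squeeze_zero_norm (fun G => ?_) h1
    rw [Real.norm_eq_abs, abs_mul, hex]
    simp only [Function.comp]
    rw [abs_of_pos (Real.exp_pos _), div_eq_mul_inv, ← mul_assoc]
    exact mul_le_mul_of_nonneg_right (Zf_bd hs hO.fbd (m * G)) (Real.exp_pos _).le
  have hI : Tendsto (fun G : ℕ => ∫ u in (0:ℝ)..(be Q j' B (m * G)), f u * ex u) atTop
      (𝓝 (∫ v in Set.Ioi (0:ℝ), Real.exp (-(v * t⁻¹)) * f v)) := by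
    have h := intervalIntegral_tendsto_integral_Ioi 0 (hfi t⁻¹ (inv_pos.mpr ht)) hbelim
    refine h.congr ?_
    intro G
    apply intervalIntegral.integral_congr
    intro u _
    simp only [hex, div_eq_mul_inv]
    ring
  have hE : Tendsto (fun G : ℕ => ∑ n ∈ range (B (m * G) + 1), E Q j' (fun n => s n + x n) t⁻¹ n) atTop
      (𝓝 (∑' n : ℕ, E Q j' (fun n => s n + x n) t⁻¹ n)) := by
    have hC : ∃ C : ℝ, ∀ n : ℕ, 1 ≤ n → |cf (fun n => s n + x n) n| ≤ C * n := by
      refine ⟨1, fun n hn => (cf_le hs hS hO n).trans ?_⟩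
      rw [one_mul]
      exact_mod_cast hn
    have hE := (sumE Q j' (fun n => s n + x n) hQ1 hj1 hC t⁻¹ (inv_pos.mpr ht)).hasSum.tendsto_sum_nat
    have hN : Tendsto (fun G : ℕ => B (m * G) + 1) atTop atTop :=
      (tendsto_add_atTop_nat 1).comp (hs.mono.tendsto_atTop.comp hmG)
    exact hE.comp hN
  have hlim := ((((hE.sub_const ((vv Q j' 1) ^ 2 * Real.exp (-(vv Q j' 1 * t⁻¹)))).add hZ).sub
    (hI.sub_const (∫ u in (0:ℝ)..(be Q j' B 0), f u * ex u))).const_mul T⁻¹)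
  have huniq := tendsto_nhds_unique htend (hlim.congr fun G => (hpart G).symm)
  have e1 : Real.exp (-(vv Q j' 1 / t)) = Real.exp (-(vv Q j' 1 * t⁻¹)) := by rw [div_eq_mul_inv]
  rw [e1] at huniq
  have e2 : ∫ v in Set.Ioi (0:ℝ), Real.exp (-(v * t)) * f v = T⁻¹ * (∑' n : ℕ, E Q j' (fun n => s n + x n) t⁻¹ n -
      ∫ v in Set.Ioi (0:ℝ), Real.exp (-(v * t⁻¹)) * f v) := by
    linear_combination huniq
  rw [e2, ← mul_assoc, mul_inv_cancel₀ hTpos.ne', one_mul]

end main

/-- task THETA -/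
theorem task : TaskTheta := by
  intro hBlz hSrc Q j' m B w ε ω hs s x f hS hO t ht
  have hA := lap hBlz hSrc hs hS hO ht
  have hB := lap hBlz hSrc hs hS hO (inv_pos.mpr ht)
  rw [inv_inv] at hB
  have htk : t ^ (4 * Q + 4) ≠ 0 := by positivity
  have hB' : ∫ v in Set.Ioi (0:ℝ), Real.exp (-(v * t⁻¹)) * f v =
      t ^ (4 * Q + 4) * (∑' n : ℕ, E Q j' (fun n => s n + x n) t n -
        ∫ v in Set.Ioi (0:ℝ), Real.exp (-(v * t)) * f v) := by
    rw [← hB, inv_pow, ← mul_assoc, mul_inv_cancel₀ htk, one_mul]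
  have hfin : ∑' n : ℕ, E Q j' (fun n => s n + x n) t⁻¹ n =
      t ^ (4 * Q + 4) * ∑' n : ℕ, E Q j' (fun n => s n + x n) t n := by
    linarith
  have e1 : ∀ n : ℕ, cf (fun n => s n + x n) n * (vv Q j' n) ^ 2 * Real.exp (-(vv Q j' n / t)) =
      E Q j' (fun n => s n + x n) t⁻¹ n := by
    intro n
    rw [E, div_eq_mul_inv]
  simp only [e1]
  exact hfin

end Pool.Agent.W589.PX
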